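import Mathlib

set_option autoImplicit false

namespace Pool.Agent.Work.MP_5851c7_co

variable {V : Type*} [DecidableEq V]

/-- The number of arcs of `B` leaving `v`. -/
def outDeg (B : Finset (V × V)) (v : V) : ℕ := (B.filter (fun a => a.1 = v)).card

/-- The number of arcs of `B` entering `v`. -/
def inDeg (B : Finset (V × V)) (v : V) : ℕ := (B.filter (fun a => a.2 = v)).card

/-- The balanced degree of `v` in the arc set `B`: outdegree minus indegree. -/
def bal (B : Finset (V × V)) (v : V) : ℤ := (outDeg B v : ℤ) - (inDeg B v : ℤ)

/-- `B` is strong locally irregular: the ends of each arc of `B` have different balanced degrees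
in `B`. -/
def StrongLocIrr (B : Finset (V × V)) : Prop := ∀ a ∈ B, bal B a.1 ≠ bal B a.2

end Pool.Agent.Work.MP_5851c7_co
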