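import Pool.Agent.Work.MP_5851c7_co.Defs

-- merged part: Pool.Agent.Work.MP_5851c7_co.Basic
section
set_option autoImplicit false

namespace Pool.Agent.Work.MP_5851c7_co

open Finset

variable {V : Type*} [DecidableEq V]

/-- `A` has a strong locally irregular colouring with colours from `κ`. -/
def Col (A : Finset (V × V)) (κ : Type) [DecidableEq κ] : Prop :=
  ∃ c : V × V → κ, ∀ i, StrongLocIrr (A.filter (fun a => c a = i))

theorem Col.union {A : Finset (V × V)} (p : V × V → Prop) [DecidablePred p]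
    {κ₁ κ₂ : Type} [DecidableEq κ₁] [DecidableEq κ₂]
    (h₁ : Col (A.filter p) κ₁) (h₂ : Col (A.filter (fun a => ¬ p a)) κ₂) :
    Col A (κ₁ ⊕ κ₂) := by
  obtain ⟨c₁, h₁⟩ := h₁
  obtain ⟨c₂, h₂⟩ := h₂
  refine ⟨fun a => if p a then Sum.inl (c₁ a) else Sum.inr (c₂ a), ?_⟩
  rintro (i | i)
  · convert h₁ i using 1
    ext a
    by_cases h : p a <;> simp [h]
  · convert h₂ i using 1
    ext a
    by_cases h : p a <;> simp [h]

theorem outDeg_swap (B : Finset (V × V)) (v : V) :
    outDeg (B.image Prod.swap) v = inDeg B v := by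
  unfold outDeg inDeg
  rw [filter_image, card_image_of_injective _ Prod.swap_injective]
  rfl

theorem inDeg_swap (B : Finset (V × V)) (v : V) :
    inDeg (B.image Prod.swap) v = outDeg B v := by
  unfold outDeg inDeg
  rw [filter_image, card_image_of_injective _ Prod.swap_injective]
  rfl

theorem bal_swap (B : Finset (V × V)) (v : V) : bal (B.image Prod.swap) v = - bal B v := by
  unfold bal
  rw [outDeg_swap, inDeg_swap]
  ring

theorem Col.of_swap {A : Finset (V × V)} {κ : Type} [DecidableEq κ]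
    (h : Col (A.image Prod.swap) κ) : Col A κ := by
  obtain ⟨c, h⟩ := h
  refine ⟨fun a => c a.swap, fun i a ha => ?_⟩
  have h1 := h i a.swap (by
    rw [mem_filter] at ha ⊢
    exact ⟨mem_image_of_mem _ ha.1, ha.2⟩)
  rw [filter_image, bal_swap, bal_swap] at h1
  intro h2
  apply h1
  simp only [Prod.fst_swap, Prod.snd_swap]
  rw [h2]

theorem Col.cut {A : Finset (V × V)} (R : V → Prop) (h : ∀ a ∈ A, ¬ R a.1 ∧ R a.2) :
    Col A Unit := by
  refine ⟨fun _ => (), fun i a ha => ?_⟩
  have hA : A.filter (fun _ => () = i) = A := by simp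
  rw [hA] at ha ⊢
  have h1 : inDeg A a.1 = 0 := by
    unfold inDeg
    rw [card_eq_zero, filter_eq_empty_iff]
    intro b hb hb'
    exact (h a ha).1 (hb' ▸ (h b hb).2)
  have h2 : outDeg A a.2 = 0 := by
    unfold outDeg
    rw [card_eq_zero, filter_eq_empty_iff]
    intro b hb hb'
    exact (h b hb).1 (hb' ▸ (h a ha).2)
  have h3 : 0 < outDeg A a.1 := card_pos.2 ⟨a, by simp [ha]⟩
  unfold bal
  omega

theorem Col.equiv {A : Finset (V × V)} {κ₁ κ₂ : Type} [DecidableEq κ₁] [DecidableEq κ₂]
    (e : κ₁ ≃ κ₂) (h : Col A κ₁) : Col A κ₂ := by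
  obtain ⟨c, h⟩ := h
  refine ⟨fun a => e (c a), fun i => ?_⟩
  have : A.filter (fun a => e (c a) = i) = A.filter (fun a => c a = e.symm i) := by
    ext a
    simp [Equiv.eq_symm_apply]
  rw [this]
  exact h (e.symm i)

/-- Halving lemma: if every element lies in at most two of the sets `N v`, there are pairwise
disjoint subsets `T v` of `N v` each with half of the elements. -/
theorem halving {I α : Type*} [Fintype I] [DecidableEq I] [DecidableEq α] (N : I → Finset α)
    (hN : ∀ a, (univ.filter (fun v => a ∈ N v)).card ≤ 2) :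
    ∃ T : I → Finset α, (∀ v, T v ⊆ N v) ∧ (∀ v, (T v).card = (N v).card / 2) ∧
      ∀ v w, v ≠ w → Disjoint (T v) (T w) := by
  classical
  have hall := (all_card_le_biUnion_card_iff_exists_injective
    (fun s : (Σ v : I, Fin ((N v).card / 2)) => N s.1)).1 (by
      intro s
      set W := s.image (fun x => x.1) with hW
      have h1 : s.card ≤ ∑ v ∈ W, (N v).card / 2 := by
        have : s ⊆ W.sigma (fun v => (univ : Finset (Fin ((N v).card / 2)))) := by
          intro x hx
          simp only [mem_sigma, mem_univ, and_true]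
          exact mem_image_of_mem _ hx
        refine (card_le_card this).trans (le_of_eq ?_)
        simp [card_sigma]
      have h2 : s.biUnion (fun x => N x.1) = W.biUnion N := by
        rw [hW, image_biUnion]
      have h3 : ∑ v ∈ W, (N v).card ≤ 2 * (W.biUnion N).card := by
        calc ∑ v ∈ W, (N v).card
            = ∑ v ∈ W, ∑ a ∈ W.biUnion N, if a ∈ N v then 1 else 0 := by
              refine sum_congr rfl (fun v hv => ?_)
              rw [← card_filter]
              congr 1
              ext a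
              simp only [mem_filter, mem_biUnion]
              exact ⟨fun h => ⟨⟨v, hv, h⟩, h⟩, fun h => h.2⟩
          _ = ∑ a ∈ W.biUnion N, ∑ v ∈ W, if a ∈ N v then 1 else 0 := sum_comm
          _ ≤ ∑ a ∈ W.biUnion N, 2 := by
              refine sum_le_sum (fun a _ => ?_)
              rw [← card_filter]
              exact (card_le_card (filter_subset_filter _ (subset_univ _))).trans (hN a)
          _ = 2 * (W.biUnion N).card := by simp [mul_comm]
      have h4 : 2 * ∑ v ∈ W, (N v).card / 2 ≤ ∑ v ∈ W, (N v).card := by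
        rw [mul_sum]
        exact sum_le_sum (fun v _ => Nat.mul_div_le _ _)
      rw [h2]
      omega)
  obtain ⟨f, hf, hfN⟩ := hall
  refine ⟨fun v => univ.image (fun j : Fin ((N v).card / 2) => f ⟨v, j⟩), ?_, ?_, ?_⟩
  · intro v a ha
    obtain ⟨j, -, rfl⟩ := mem_image.1 ha
    exact hfN ⟨v, j⟩
  · intro v
    rw [card_image_of_injective]
    · simp
    · intro j k hjk
      have := hf hjk
      simpa using this
  · intro v w hvw
    rw [disjoint_left]
    intro a ha hb
    obtain ⟨j, -, rfl⟩ := mem_image.1 ha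
    obtain ⟨k, -, hk⟩ := mem_image.1 hb
    have := congrArg Sigma.fst (hf hk)
    exact hvw this.symm

end Pool.Agent.Work.MP_5851c7_co
end

-- merged part: Pool.Agent.Work.MP_5851c7_co.Forward
section
set_option autoImplicit false

namespace Pool.Agent.Work.MP_5851c7_co

open Finset

variable {V : Type*} [DecidableEq V]

theorem pick (D f₁ f₂ : ℕ) (F₁ F₂ : Finset ℤ) (h₁ : F₁.card ≤ f₁) (h₂ : F₂.card ≤ f₂)
    (h : 2 * (f₁ + f₂) ≤ D) :
    ∃ x : ℕ, f₁ ≤ x ∧ x + f₂ ≤ D ∧ (x : ℤ) - f₁ ∉ F₁ ∧ (D : ℤ) - x - f₂ ∉ F₂ := by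
  have hc : (F₁.image (fun y => y + (f₁ : ℤ)) ∪ F₂.image (fun y => (D : ℤ) - f₂ - y)).card
      < (Icc (f₁ : ℤ) ((D : ℤ) - f₂)).card := by
    have a1 := card_union_le (F₁.image (fun y => y + (f₁ : ℤ)))
      (F₂.image (fun y => (D : ℤ) - f₂ - y))
    have a2 : (F₁.image (fun y => y + (f₁ : ℤ))).card ≤ F₁.card := card_image_le
    have a3 : (F₂.image (fun y => (D : ℤ) - f₂ - y)).card ≤ F₂.card := card_image_le
    rw [Int.card_Icc]
    omega
  obtain ⟨y, hy, hy'⟩ := exists_mem_notMem_of_card_lt_card hc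
  rw [mem_Icc] at hy
  rw [mem_union, not_or] at hy'
  refine ⟨y.toNat, by omega, by omega, ?_, ?_⟩
  · intro hm
    apply hy'.1
    exact mem_image.2 ⟨_, hm, by omega⟩
  · intro hm
    apply hy'.2
    exact mem_image.2 ⟨_, hm, by omega⟩

/-- The colour class of `i`. -/
abbrev cls (A : Finset (V × V)) (c : V × V → Fin 6 × Bool) (i : Fin 6 × Bool) : Finset (V × V) :=
  A.filter (fun a => c a = i)

/-- The invariant of the greedy colouring. -/
def Inv (A : Finset (V × V)) (r : V → ℕ) (t : ℕ) (c : V × V → Fin 6 × Bool) : Prop :=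
  ∀ a ∈ A, (r a.1 < t → 0 ≤ bal (cls A c (c a)) a.1) ∧
    (r a.2 < t → bal (cls A c (c a)) a.1 ≠ bal (cls A c (c a)) a.2)

theorem sum_inDeg (A : Finset (V × V)) (c : V × V → Fin 6 × Bool) (v : V) :
    ∑ p : Fin 6, (inDeg (cls A c (p, true)) v + inDeg (cls A c (p, false)) v) = inDeg A v := by
  have h := card_eq_sum_card_fiberwise (f := c) (s := A.filter (fun a => a.2 = v))
    (t := (univ : Finset (Fin 6 × Bool))) (fun _ _ => mem_univ _)
  unfold inDeg
  rw [h, Fintype.sum_prod_type]
  refine sum_congr rfl (fun p _ => ?_)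
  rw [Fintype.sum_bool]
  congr 1 <;> (congr 1; rw [filter_comm])

theorem choose_pair (A : Finset (V × V)) (c : V × V → Fin 6 × Bool) (v : V)
    (hdeg : outDeg A v = 0 ∨ inDeg A v ≤ 3 * outDeg A v) :
    ∃ (p : Fin 6) (x : ℕ), x ≤ outDeg A v ∧
      (x = 0 ∨ (inDeg (cls A c (p, true)) v ≤ x ∧
        ∀ a ∈ A, a.2 = v → c a = (p, true) →
          bal (cls A c (p, true)) a.1 ≠ (x : ℤ) - inDeg (cls A c (p, true)) v)) ∧
      (x = outDeg A v ∨ (x + inDeg (cls A c (p, false)) v ≤ outDeg A v ∧
        ∀ a ∈ A, a.2 = v → c a = (p, false) →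
          bal (cls A c (p, false)) a.1
            ≠ (outDeg A v : ℤ) - x - inDeg (cls A c (p, false)) v)) := by
  rcases hdeg with h | h
  · exact ⟨0, 0, Nat.zero_le _, Or.inl rfl, Or.inl h.symm⟩
  have hp : ∃ p : Fin 6,
      2 * (inDeg (cls A c (p, true)) v + inDeg (cls A c (p, false)) v) ≤ outDeg A v := by
    by_contra hcon
    push Not at hcon
    have hs := sum_inDeg A c v
    rw [Fin.sum_univ_six] at hs
    have h0 := hcon 0
    have h1 := hcon 1
    have h2 := hcon 2
    have h3 := hcon 3
    have h4 := hcon 4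
    have h5 := hcon 5
    omega
  obtain ⟨p, hp⟩ := hp
  obtain ⟨x, hx1, hx2, hx3, hx4⟩ := pick (outDeg A v)
    (inDeg (cls A c (p, true)) v) (inDeg (cls A c (p, false)) v)
    (((cls A c (p, true)).filter (fun a : V × V => a.2 = v)).image
      (fun a : V × V => bal (cls A c (p, true)) a.1))
    (((cls A c (p, false)).filter (fun a : V × V => a.2 = v)).image
      (fun a : V × V => bal (cls A c (p, false)) a.1)) card_image_le card_image_le hp
  refine ⟨p, x, by omega, Or.inr ⟨hx1, ?_⟩, Or.inr ⟨hx2, ?_⟩⟩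
  · intro a ha hav hca he
    apply hx3
    exact mem_image.2 ⟨a, by simp [ha, hav, hca], he⟩
  · intro a ha hav hca he
    apply hx4
    exact mem_image.2 ⟨a, by simp [ha, hav, hca], he⟩

theorem step (A : Finset (V × V)) (r : V → ℕ) (hr : Function.Injective r)
    (hA : ∀ a ∈ A, r a.1 < r a.2)
    (hdeg : ∀ v, outDeg A v = 0 ∨ inDeg A v ≤ 3 * outDeg A v) (t : ℕ)
    (c : V × V → Fin 6 × Bool) (hc : Inv A r t c) : ∃ c', Inv A r (t + 1) c' := by
  by_cases hv : ∃ v, r v = t
  swap
  · push Not at hv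
    refine ⟨c, fun a ha => ⟨fun h => (hc a ha).1 ?_, fun h => (hc a ha).2 ?_⟩⟩
    · have := hv a.1
      omega
    · have := hv a.2
      omega
  obtain ⟨v, hv⟩ := hv
  obtain ⟨p, x, hx, hx1, hx2⟩ := choose_pair A c v (hdeg v)
  obtain ⟨T, hT, hTc⟩ := exists_subset_card_eq (s := A.filter (fun a => a.1 = v)) hx
  set c' : V × V → Fin 6 × Bool :=
    fun a => if a.1 = v then (if a ∈ T then (p, true) else (p, false)) else c a with hc'
  have hne : ∀ a : V × V, a.1 ≠ v → c' a = c a := fun a h => by simp [hc', h]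
  have hin : ∀ u, r u ≤ t → ∀ i, inDeg (cls A c' i) u = inDeg (cls A c i) u := by
    intro u hu i
    unfold inDeg
    congr 1
    ext a
    simp only [mem_filter]
    constructor
    · rintro ⟨⟨ha, h1⟩, h2⟩
      have := hA a ha
      have h3 : a.1 ≠ v := by
        rintro rfl
        rw [h2] at this
        omega
      exact ⟨⟨ha, by rw [← hne a h3, h1]⟩, h2⟩
    · rintro ⟨⟨ha, h1⟩, h2⟩
      have := hA a ha
      have h3 : a.1 ≠ v := by
        rintro rfl
        rw [h2] at this
        omega
      exact ⟨⟨ha, by rw [hne a h3, h1]⟩, h2⟩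
  have hout : ∀ u, u ≠ v → ∀ i, outDeg (cls A c' i) u = outDeg (cls A c i) u := by
    intro u hu i
    unfold outDeg
    congr 1
    ext a
    simp only [mem_filter]
    constructor
    · rintro ⟨⟨ha, h1⟩, h2⟩
      exact ⟨⟨ha, by rw [← hne a (h2 ▸ hu), h1]⟩, h2⟩
    · rintro ⟨⟨ha, h1⟩, h2⟩
      exact ⟨⟨ha, by rw [hne a (h2 ▸ hu), h1]⟩, h2⟩
  have hbal : ∀ u, r u < t → ∀ i, bal (cls A c' i) u = bal (cls A c i) u := by
    intro u hu i
    unfold bal
    rw [hin u hu.le, hout u (by rintro rfl; omega)]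
  have ho1 : outDeg (cls A c' (p, true)) v = x := by
    rw [← hTc]
    unfold outDeg
    congr 1
    ext a
    simp only [mem_filter]
    constructor
    · rintro ⟨⟨ha, h1⟩, h2⟩
      by_contra h3
      simp [hc', h2, h3] at h1
    · intro h
      have h1 := mem_filter.1 (hT h)
      exact ⟨⟨h1.1, by simp [hc', h1.2, h]⟩, h1.2⟩
  have ho2 : outDeg (cls A c' (p, false)) v = outDeg A v - x := by
    rw [← hTc]
    unfold outDeg
    rw [← card_sdiff_of_subset hT]
    congr 1
    ext a
    simp only [mem_filter, mem_sdiff]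
    constructor
    · rintro ⟨⟨ha, h1⟩, h2⟩
      refine ⟨⟨ha, h2⟩, fun h3 => ?_⟩
      simp [hc', h2, h3] at h1
    · rintro ⟨⟨ha, h2⟩, h3⟩
      exact ⟨⟨ha, by simp [hc', h2, h3]⟩, h2⟩
  have ho3 : ∀ i, i ≠ (p, true) → i ≠ (p, false) → outDeg (cls A c' i) v = 0 := by
    intro i h1 h2
    unfold outDeg
    rw [card_eq_zero, filter_eq_empty_iff]
    intro a ha h3
    have h4 := (mem_filter.1 ha).2
    by_cases h5 : a ∈ T
    · simp [hc', h3, h5] at h4
      exact h1 h4.symm
    · simp [hc', h3, h5] at h4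
      exact h2 h4.symm
  refine ⟨c', fun a ha => ⟨fun h => ?_, fun h => ?_⟩⟩
  · by_cases h1 : a.1 = v
    · have hpos : 0 < outDeg (cls A c' (c' a)) v := card_pos.2 ⟨a, by simp [ha, h1]⟩
      by_cases h2 : a ∈ T
      · have h3 : c' a = (p, true) := by simp [hc', h1, h2]
        rw [h3] at hpos ⊢
        rw [h1]
        unfold bal
        rw [hin v hv.le, ho1] 
        rw [ho1] at hpos
        rcases hx1 with h4 | h4
        · omega
        · have := h4.1
          omega
      · have h3 : c' a = (p, false) := by simp [hc', h1, h2]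
        rw [h3] at hpos ⊢
        rw [h1]
        unfold bal
        rw [hin v hv.le, ho2]
        rw [ho2] at hpos
        rcases hx2 with h4 | h4
        · omega
        · have := h4.1
          omega
    · have h2 : r a.1 < t := by
        have : r a.1 ≠ t := fun h3 => h1 (hr (h3.trans hv.symm))
        omega
      rw [hne a h1, hbal _ h2]
      exact (hc a ha).1 h2
  · have h2 : r a.1 < t := by
      have := hA a ha
      omega
    have h1 : a.1 ≠ v := by
      rintro rfl
      omega
    rw [hne a h1, hbal _ h2]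
    by_cases h3 : a.2 = v
    · have h0 := (hc a ha).1 h2
      have hpos : 0 < inDeg (cls A c (c a)) v := card_pos.2 ⟨a, by simp [ha, h3]⟩
      rw [h3]
      have hb : bal (cls A c' (c a)) v
          = (outDeg (cls A c' (c a)) v : ℤ) - inDeg (cls A c (c a)) v := by
        unfold bal
        rw [hin v hv.le]
      rw [hb]
      by_cases h4 : c a = (p, true)
      · rw [h4] at h0 hpos ⊢
        rw [ho1]
        rcases hx1 with h5 | h5
        · omega
        · exact h5.2 a ha h3 h4
      by_cases h5 : c a = (p, false)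
      · rw [h5] at h0 hpos ⊢
        rw [ho2]
        rcases hx2 with h6 | h6
        · omega
        · have := h6.2 a ha h3 h5
          omega
      rw [ho3 _ h4 h5]
      omega
    · have h4 : r a.2 < t := by
        have : r a.2 ≠ t := fun h5 => h3 (hr (h5.trans hv.symm))
        omega
      rw [hbal _ h4]
      exact (hc a ha).2 h4

theorem forward (A : Finset (V × V)) (r : V → ℕ) (hr : Function.Injective r)
    (hA : ∀ a ∈ A, r a.1 < r a.2)
    (hdeg : ∀ v, outDeg A v = 0 ∨ inDeg A v ≤ 3 * outDeg A v) : Col A (Fin 6 × Bool) := by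
  have h : ∀ t, ∃ c, Inv A r t c := by
    intro t
    induction t with
    | zero => exact ⟨fun _ => (0, true), fun a _ => ⟨fun h => by omega, fun h => by omega⟩⟩
    | succ t ih =>
      obtain ⟨c, hc⟩ := ih
      exact step A r hr hA hdeg t c hc
  obtain ⟨c, hc⟩ := h (A.sup (fun a => r a.2) + 1)
  refine ⟨c, fun i a ha => ?_⟩
  obtain ⟨ha1, rfl⟩ := mem_filter.1 ha
  refine (hc a ha1).2 ?_
  have := le_sup (f := fun a : V × V => r a.2) ha1
  exact Nat.lt_succ_of_le this

end Pool.Agent.Work.MP_5851c7_co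
end

-- merged part: Pool.Agent.Work.MP_5851c7_co.Main
section
set_option autoImplicit false

namespace Pool.Agent.Work.MP_5851c7_co

open Finset

variable {V : Type*} [DecidableEq V]

/-- The greedy colouring run backwards. -/
theorem backward [Fintype V] (A : Finset (V × V)) (r : V → ℕ) (hr : Function.Injective r)
    (hA : ∀ a ∈ A, r a.1 < r a.2)
    (hdeg : ∀ v, inDeg A v = 0 ∨ outDeg A v ≤ 3 * inDeg A v) : Col A (Fin 6 × Bool) := by
  apply Col.of_swap
  have hb : ∀ v, r v ≤ univ.sup r := fun v => le_sup (f := r) (mem_univ v)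
  refine forward _ (fun v => univ.sup r - r v) ?_ ?_ ?_
  · intro u v h
    have h1 := hb u
    have h2 := hb v
    simp only at h
    exact hr (by omega)
  · intro a ha
    obtain ⟨b, hb', rfl⟩ := mem_image.1 ha
    have h1 := hA b hb'
    have h2 := hb b.2
    simp only [Prod.fst_swap, Prod.snd_swap]
    omega
  · intro v
    rw [outDeg_swap, inDeg_swap]
    exact hdeg v

theorem acyclic [Fintype V] (A : Finset (V × V)) (r : V → ℕ) (hr : Function.Injective r)
    (hA : ∀ a ∈ A, r a.1 < r a.2) :
    Col A ((Fin 6 × Bool) ⊕ (Fin 6 × Bool) ⊕ Unit) := by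
  classical
  set R : V → Prop := fun v => inDeg A v ≤ outDeg A v with hR
  set N : V → Finset (V × V) := fun v =>
    if R v then A.filter (fun a => a.1 = v) else A.filter (fun a => a.2 = v) with hN
  obtain ⟨T, hT, hTc, hTd⟩ := halving N (by
    intro a
    have : univ.filter (fun v => a ∈ N v) ⊆ {a.1, a.2} := by
      intro v hv
      have h1 := (mem_filter.1 hv).2
      simp only [hN] at h1
      split_ifs at h1
      · simp [(mem_filter.1 h1).2]
      · simp [(mem_filter.1 h1).2]
    exact (card_le_card this).trans card_le_two)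
  refine Col.union (fun a => R a.1 ∧ (R a.2 ∨ a ∈ T a.1)) ?_
    (Col.union (fun a => ¬ R a.2) ?_ ?_)
  · refine forward _ r hr (fun a ha => hA a (mem_filter.1 ha).1) (fun v => ?_)
    by_cases hv : R v
    · have h1 : (T v).card ≤ outDeg (A.filter (fun a => R a.1 ∧ (R a.2 ∨ a ∈ T a.1))) v := by
        apply card_le_card
        intro a ha
        have h2 := hT v ha
        simp only [hN, if_pos hv] at h2
        obtain ⟨h3, h4⟩ := mem_filter.1 h2
        simp only [mem_filter]
        exact ⟨⟨h3, h4 ▸ hv, Or.inr (h4 ▸ ha)⟩, h4⟩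
      have h2 : inDeg (A.filter (fun a => R a.1 ∧ (R a.2 ∨ a ∈ T a.1))) v ≤ inDeg A v :=
        card_le_card (filter_subset_filter _ (filter_subset _ _))
      have h3 : (N v).card = outDeg A v := by simp only [hN, if_pos hv]; rfl
      have h4 := hTc v
      have h5 : inDeg A v ≤ outDeg A v := hv
      omega
    · left
      unfold outDeg
      rw [card_eq_zero, filter_eq_empty_iff]
      intro a ha h
      exact hv (h ▸ (mem_filter.1 ha).2.1)
  · refine backward _ r hr (fun a ha => hA a (mem_filter.1 (mem_filter.1 ha).1).1) (fun v => ?_)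
    by_cases hv : R v
    · left
      unfold inDeg
      rw [card_eq_zero, filter_eq_empty_iff]
      intro a ha h
      exact (mem_filter.1 ha).2 (h ▸ hv)
    · have h1 : (T v).card ≤ inDeg ((A.filter (fun a => ¬ (R a.1 ∧ (R a.2 ∨ a ∈ T a.1)))).filter
          (fun a => ¬ R a.2)) v := by
        apply card_le_card
        intro a ha
        have h2 := hT v ha
        simp only [hN, if_neg hv] at h2
        obtain ⟨h3, h4⟩ := mem_filter.1 h2
        simp only [mem_filter]
        refine ⟨⟨⟨h3, ?_⟩, h4 ▸ hv⟩, h4⟩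
        rintro ⟨h5, h6 | h6⟩
        · exact hv (h4 ▸ h6)
        · have h7 : a.1 ≠ v := by
            rintro rfl
            exact hv h5
          exact disjoint_left.1 (hTd _ _ h7) h6 ha
      have h2 : outDeg ((A.filter (fun a => ¬ (R a.1 ∧ (R a.2 ∨ a ∈ T a.1)))).filter
          (fun a => ¬ R a.2)) v ≤ outDeg A v :=
        card_le_card (filter_subset_filter _ ((filter_subset _ _).trans (filter_subset _ _)))
      have h3 : (N v).card = inDeg A v := by simp only [hN, if_neg hv]; rfl
      have h4 := hTc v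
      have h5 : ¬ inDeg A v ≤ outDeg A v := hv
      omega
  · refine Col.cut R (fun a ha => ?_)
    simp only [mem_filter, not_not] at ha
    exact ⟨fun h => ha.1.2 ⟨h, Or.inl ha.2⟩, ha.2⟩

theorem col_fifty [Fintype V] (A : Finset (V × V)) (hA : ∀ a ∈ A, a.1 ≠ a.2) : Col A (Fin 50) := by
  set r : V → ℕ := fun v => (Fintype.equivFin V v).val with hr
  have hri : Function.Injective r := fun u v h => (Fintype.equivFin V).injective (Fin.ext h)
  have h : Col A (((Fin 6 × Bool) ⊕ (Fin 6 × Bool) ⊕ Unit) ⊕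
      ((Fin 6 × Bool) ⊕ (Fin 6 × Bool) ⊕ Unit)) := by
    refine Col.union (fun a => r a.1 < r a.2) ?_ ?_
    · exact acyclic _ r hri (fun a ha => (mem_filter.1 ha).2)
    · apply Col.of_swap
      refine acyclic _ r hri (fun a ha => ?_)
      obtain ⟨b, hb, rfl⟩ := mem_image.1 ha
      obtain ⟨h1, h2⟩ := mem_filter.1 hb
      have h3 : r b.1 ≠ r b.2 := fun h => hA b h1 (hri h)
      simp only [Prod.fst_swap, Prod.snd_swap]
      omega
  exact h.equiv (Fintype.equivFinOfCardEq (by simp))

end Pool.Agent.Work.MP_5851c7_co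
end
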